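import Mathlib
import Pool.Agent.Lib.helper11.Ekeland

namespace Pool.Agent.Results.MP_a52dbe_an.NoBlid

open Set Filter Topology Metric unitInterval

/-- the sup norm of `C[0,1]` is rough -/
lemma rough (x : C(I, ℝ)) {δ : ℝ} (hδ : 0 < δ) :
    ∃ h : C(I, ℝ), ‖h‖ ≤ δ ∧ 2 * ‖x‖ + δ ≤ ‖x + h‖ + ‖x - h‖ := by
  obtain ⟨s, -, hs⟩ := isCompact_univ.exists_isMaxOn univ_nonempty
    (continuous_norm.comp x.continuous).continuousOn
  have e : ‖x‖ = |x s| := le_antisymm ((x.norm_le (abs_nonneg _)).2 fun t => hs trivial)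
    (x.norm_coe_le_norm s)
  obtain ⟨t, h1, h2⟩ : ∃ t, dist (x t) (x s) < δ ∧ t ≠ s :=
    ((((x.continuous.tendsto s).mono_left (nhdsWithin_le_nhds (s := {s}ᶜ))).eventually
      (ball_mem_nhds _ hδ)).and self_mem_nhdsWithin).exists
  obtain ⟨g, g0, g1, g2⟩ := exists_continuous_zero_one_of_isClosed (isClosed_singleton (x := s))
    (isClosed_singleton (x := t)) (by simpa using h2.symm)
  have g0 : g s = 0 := g0 rfl
  have g1 : g t = 1 := g1 rfl
  refine ⟨δ • (1 - (2 : ℝ) • g), (ContinuousMap.norm_le _ hδ.le).2 fun u => ?_, ?_⟩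
  · have := g2 u
    simp only [ContinuousMap.smul_apply, ContinuousMap.sub_apply, ContinuousMap.one_apply,
      smul_eq_mul, Real.norm_eq_abs, abs_le]
    constructor <;> nlinarith [this.1, this.2]
  · have a := abs_le.1 ((x + δ • (1 - (2 : ℝ) • g)).norm_coe_le_norm s)
    have b := abs_le.1 ((x + δ • (1 - (2 : ℝ) • g)).norm_coe_le_norm t)
    have c := abs_le.1 ((x - δ • (1 - (2 : ℝ) • g)).norm_coe_le_norm s)
    have d := abs_le.1 ((x - δ • (1 - (2 : ℝ) • g)).norm_coe_le_norm t)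
    rw [Real.dist_eq, abs_lt] at h1
    simp only [ContinuousMap.add_apply, ContinuousMap.smul_apply, ContinuousMap.sub_apply,
      ContinuousMap.one_apply, smul_eq_mul, g0, g1] at a b c d
    rcases abs_cases (x s) with q | q <;> linarith

lemma bump {G : C(I, ℝ) → ℝ} (hG : Differentiable ℝ G) {r C : ℝ} (hr : 0 < r)
    (hb : ∀ x ∈ closedBall 0 r, G x ≤ C) (h0 : ∀ x ∈ sphere 0 r, G x = 0) : G 0 ≤ 0 := by
  refine not_lt.1 fun ha => ?_
  obtain ⟨c, c0, hc⟩ : ∃ c, 0 < c ∧ c * r < G 0 :=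
    ⟨G 0 / r / 2, by positivity, by field_simp; linarith⟩
  obtain ⟨y, y1, y2, y3⟩ := Lib.helper11.Ekeland.eke isClosed_closedBall
    (f := fun x => G x + c * ‖x‖) (by have := hG.continuous; fun_prop) (C := C + c * r)
    (fun z hz => add_le_add (hb z hz) (by gcongr; simpa using hz)) (k := c / 8) (by positivity)
    (mem_closedBall_self hr.le)
  rw [mem_closedBall_zero_iff] at y1
  have yr : ‖y‖ < r := y1.lt_of_ne fun e => by
    have : 0 ≤ c / 8 * dist y 0 := by positivity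
    rw [h0 y (by simpa using e), e, norm_zero] at y2
    linarith
  obtain ⟨ε, ε0, hε⟩ := Metric.eventually_nhds_iff.1
    (Asymptotics.isLittleO_iff.1 (hasFDerivAt_iff_isLittleO_nhds_zero.1 (hG y).hasFDerivAt)
      (show 0 < c / 8 by positivity))
  obtain ⟨δ, δ0, δ1, δ2⟩ : ∃ δ, 0 < δ ∧ δ < ε ∧ δ ≤ r - ‖y‖ :=
    ⟨min (ε / 2) (r - ‖y‖), lt_min (by linarith) (by linarith),
      (min_le_left _ _).trans_lt (by linarith), min_le_right _ _⟩
  obtain ⟨h, h1, h2⟩ := rough y δ0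
  have a := abs_le.1 (hε (y := h) (by simpa using h1.trans_lt δ1))
  have b := abs_le.1 (hε (y := -h) (by simpa using h1.trans_lt δ1))
  have a' := y3 (y + h) (by rw [mem_closedBall_zero_iff]; linarith [norm_add_le y h])
  have b' := y3 (y - h) (by rw [mem_closedBall_zero_iff]; linarith [norm_sub_le y h])
  simp only [map_neg, norm_neg, ← sub_eq_add_neg, dist_self_add_left, dist_self_sub_left] at *
  nlinarith

theorem result (r : ℝ) (hr : 0 < r) : ∃ U : Set C(I, ℝ), IsOpen U ∧ sphere 0 r ⊆ U ∧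
    ¬ ∃ H : C(I, ℝ) → C(I, ℝ), Differentiable ℝ H ∧ (∀ x, H x ∈ U) ∧ ∀ x ∈ sphere 0 r, H x = x := by
  refine ⟨ball 0 (2 * r) \ {0}, isOpen_ball.sdiff isClosed_singleton, fun x hx =>
    ⟨sphere_subset_ball (by linarith) hx, ne_of_mem_sphere hx hr.ne'⟩, ?_⟩
  rintro ⟨H, h1, h2, h3⟩
  refine (h2 0).2 (ContinuousMap.ext fun t => ?_)
  have key : ∀ s : ℝ, |s| = 1 → s * H 0 t ≤ 0 := fun s hs => by
    have := bump (G := fun x => s * (ContinuousMap.evalCLM ℝ t) (H x - x)) (by fun_prop) hr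
      (C := 3 * r) (fun x hx => ?_) fun x hx => by simp [h3 x hx]
    · simpa using this
    · refine (le_abs_self _).trans ?_
      rw [abs_mul, hs, one_mul]
      refine ((H x - x).norm_coe_le_norm t).trans ((norm_sub_le _ _).trans ?_)
      linarith [mem_ball_zero_iff.1 (h2 x).1, mem_closedBall_zero_iff.1 hx]
  have := key 1 (by simp)
  have := key (-1) (by simp)
  show H 0 t = 0
  linarith

end Pool.Agent.Results.MP_a52dbe_an.NoBlid
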